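import Pool.Agent.H40.Kolm

set_option autoImplicit false

namespace Pool.Agent.Results.MP_6b7d8e_lc.NotRealisable

open Pool.Agent.H40.Kolm

/-- Some admissible `K` is the complexity function of no conditional algorithm of either kind. -/
theorem result : ∃ K : List Bool → List Bool → ℤ, Admissible K ∧
    ∀ U : List Bool → List Bool →. List Bool, Partrec₂ U →
      (PrefixFree U ∨ PrefixStable U) → ¬ Realises U K := by
  refine ⟨KK, admissible, fun U hU h => main U hU fun y p p' x x' h1 h2 h3 => ?_⟩
  rcases h with h | h
  · by_cases e : p = p'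
    · subst e
      exact Part.mem_unique h2 h3
    · exact absurd ⟨Part.dom_iff_mem.2 ⟨_, h2⟩, Part.dom_iff_mem.2 ⟨_, h3⟩⟩ (h y p p' e h1)
  · exact Part.mem_unique (h y p p' x h1 h2) h3

end Pool.Agent.Results.MP_6b7d8e_lc.NotRealisable
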